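import Pool.Agent.TH212.DV.C16
import Pool.Agent.TH212.DV.C18

/-!
# Correlations of the divisor functions `d_r` along thin families of shifts

The energy of polynomial values (`Pool.Agent.H373R2.T7`, through `Pool.Agent.TH212.PL.poly_hyp`) and the moments along
families of nearly minimal additive energy are from the starting files.
-/

set_option autoImplicit false

namespace Pool.Agent.TH212.Old.CorrelationThinShifts

open Finset Polynomial

/-- `d_r(n)`: the number of the ordered `r`-tuples of positive integers with product `n` (and `d_r(0) = 0`) -/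
def d (r n : ℕ) : ℕ := ((ArithmeticFunction.zeta : ArithmeticFunction ℕ) ^ r) n

/-- `D_r(x; h)`: the sum of `d_r(n) d_r(n + h)` over `1 ≤ n ≤ x`, with `d_r(m) = 0` for `m ≤ 0` -/
noncomputable def D (r x : ℕ) (h : ℤ) : ℝ := ∑ n ∈ Icc 1 x, (d r n : ℝ) * d r ((n : ℤ) + h).toNat

/-- The Ramanujan sum `c_q(h)`: the sum of `μ(q / g) g` over the common divisors `g` of `q` and `h`. -/
def ram (q : ℕ) (h : ℤ) : ℤ := ∑ g ∈ q.divisors.filter (fun g : ℕ => (g : ℤ) ∣ h), ArithmeticFunction.moebius (q / g) * g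

/-- `κ_s(q)`: the proportion of the `s`-tuples of residues `0 ≤ a < q` whose product is divisible by `q` -/
noncomputable def κ (s q : ℕ) : ℝ := (Nat.card {a : Fin s → Fin q // q ∣ ∏ i, (a i : ℕ)} : ℝ) / (q : ℝ) ^ s

/-- The singular series `𝔖_r(h)`: the sum of `κ_{r - 1}(q) ^ 2 c_q(h)` over the `q ≥ 1`. -/
noncomputable def 𝔖 (r : ℕ) (h : ℤ) : ℝ := ∑' q : ℕ, κ (r - 1) (q + 1) ^ 2 * (ram (q + 1) h : ℝ)

/-- `σ(h)`: the sum of `g ^ (-1/2)` over the divisors `g` of `h` -/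
noncomputable def σ (h : ℤ) : ℝ := ∑ g ∈ h.natAbs.divisors, (g : ℝ) ^ (-(1 / 2) : ℝ)

/-- `D_r(x; h)` is `#{n ≤ x : n + h ≥ 1} 𝔖_r(h) (log X) ^ (2 r - 2) / ((r - 1)!) ^ 2`, up to
`ε σ(h) X (log X) ^ (2 r - 2)`, for ALL `x ≤ X`. -/
def Asymp (r X : ℕ) (ε : ℝ) (h : ℤ) : Prop := ∀ x : ℕ, x ≤ X →
  |D r x h - (((x : ℤ) + min h 0).toNat : ℝ) * (𝔖 r h * Real.log X ^ (2 * r - 2) / ((r - 1).factorial : ℝ) ^ 2)| ≤
    ε * (σ h * X * Real.log X ^ (2 * r - 2))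

/-- The additive energy of order `p` of a finite family `v` of integers: the number of the solutions of
`v (i 1) + ⋯ + v (i p) = v (j 1) + ⋯ + v (j p)`. -/
noncomputable def energy (p : ℕ) {ι : Type} [Fintype ι] (v : ι → ℤ) : ℕ :=
  Nat.card {q : (Fin p → ι) × (Fin p → ι) // ∑ j, v (q.1 j) = ∑ j, v (q.2 j)}

theorem κ_eq (s q : ℕ) (hq : 1 ≤ q) : κ s q = Pool.Agent.TH212.DV.kap s q := Pool.Agent.TH212.DV.kap_card s q hq

theorem ram_eq (q : ℕ) (h : ℤ) : ram q h = Pool.Agent.TH212.DV.cz q (h.natAbs : ℤ) := by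
  unfold ram Pool.Agent.TH212.DV.cz
  have e : q.divisors.filter (fun g : ℕ => (g : ℤ) ∣ h) = q.divisors.filter (fun g : ℕ => (g : ℤ) ∣ (h.natAbs : ℤ)) := by
    apply filter_congr
    intro g _
    rw [Int.dvd_natAbs]
  rw [e]

theorem 𝔖_eq (t : ℕ) (h : ℤ) (hh : h ≠ 0) : 𝔖 (t + 2) h = Pool.Agent.TH212.DV.Sing (t + 1) h.natAbs := by
  have h1 := Pool.Agent.TH212.DV.sing_summable t h.natAbs (by omega)
  unfold 𝔖 Pool.Agent.TH212.DV.Sing
  rw [h1.tsum_eq_zero_add, Pool.Agent.TH212.DV.cz_zero_left, Int.cast_zero, mul_zero, zero_add]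
  apply tsum_congr
  intro q
  rw [κ_eq _ _ (Nat.succ_pos q), ram_eq]
  rfl

theorem D_eq (r x : ℕ) (h : ℤ) : D r x h = Pool.Agent.TH212.DV.DD r x h := rfl

theorem not_asymp (t X : ℕ) (ε : ℝ) (h : ℤ) (hh : h ≠ 0) (hn : ¬ Asymp (t + 2) X ε h) :
    ∃ x : ℕ, x ≤ X ∧ Pool.Agent.TH212.DV.Bad' t X ε x h := by
  unfold Asymp at hn
  push Not at hn
  obtain ⟨x, hx, hb⟩ := hn
  refine ⟨x, hx, ?_⟩
  rw [𝔖_eq t h hh, D_eq] at hb
  exact hb

open Classical in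
theorem family (r : ℕ) (hr : 2 ≤ r) (p B C U : ℕ) (ε : ℝ) (hε : 0 < ε) : ∃ X₀ : ℕ, ∀ X : ℕ, X₀ ≤ X → ∀ (ι : Type) [Fintype ι] (v : ι → ℤ),
    (∀ i, |v i| ≤ B * X) → (energy p v : ℝ) * X ≤ Real.log X ^ C * (Fintype.card ι : ℝ) ^ (2 * p) →
    ((univ.filter (fun i : ι => v i ≠ 0 ∧ ¬ Asymp r X ε (v i))).card : ℝ) ≤ Fintype.card ι / Real.log X ^ U := by
  obtain ⟨t, rfl⟩ : ∃ t, r = t + 2 := ⟨r - 2, by omega⟩
  obtain ⟨X₀, h1⟩ := Pool.Agent.TH212.DV.corr_signs t p B C U ε hε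
  refine ⟨X₀, fun X hX ι _ v hv hE => le_trans ?_ (h1 X hX ι v hv hE)⟩
  apply Nat.cast_le.2
  apply card_le_card
  intro i hi
  rw [mem_filter] at hi ⊢
  exact ⟨mem_univ _, hi.2.1, not_asymp t X ε (v i) hi.2.1 hi.2.2⟩

open Classical in
/-- **Correlations of the divisor functions along thin families of shifts.** Let `r ≥ 2`.

(1) For all `p`, `B`, `C`, `U` and `ε > 0`: for every large `X` and every finite family `v` of integers of size at most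
`B X` whose additive energy of order `p` is, up to a factor `log ^ C X`, as small as possible,
`energy p v ≤ log ^ C X · #ι ^ (2 p) / X`, all but at most `#ι / log ^ U X` members `h = v i ≠ 0` satisfy
`D_r(x; h) = #{n ≤ x : n + h ≥ 1} 𝔖_r(h) log ^ (2 r - 2) X / ((r - 1)!) ^ 2 + O(ε σ(h) X log ^ (2 r - 2) X)` for ALL
`x ≤ X`, with the implied constant `1`.

(2) This applies to the values of polynomials: for every `f ∈ ℤ[X]` of degree `k ≥ 1`, for all `B`, `U` and `ε > 0`, for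
every large `M` and EVERY integer `c` with `|c| ≤ B M ^ k`, all but at most `M / log ^ U X`, `X = M ^ k`, of the shifts
`h = c + f(m) ≠ 0`, `1 ≤ m ≤ M`, satisfy this asymptotic formula.

(3) The singular series lies between two positive constants, the upper one times `σ(h)`: there are `c > 0` and `C`
with `c ≤ 𝔖_r(h) ≤ C σ(h)` for all `h ≠ 0`. -/
theorem result (r : ℕ) (hr : 2 ≤ r) :
    (∀ (p B C U : ℕ) (ε : ℝ), 0 < ε → ∃ X₀ : ℕ, ∀ X : ℕ, X₀ ≤ X → ∀ (ι : Type) [Fintype ι] (v : ι → ℤ),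
      (∀ i, |v i| ≤ B * X) → (energy p v : ℝ) * X ≤ Real.log X ^ C * (Fintype.card ι : ℝ) ^ (2 * p) →
      ((univ.filter (fun i : ι => v i ≠ 0 ∧ ¬ Asymp r X ε (v i))).card : ℝ) ≤ Fintype.card ι / Real.log X ^ U) ∧
    (∀ (f : ℤ[X]), 1 ≤ f.natDegree → ∀ (B U : ℕ) (ε : ℝ), 0 < ε → ∃ M₀ : ℕ, ∀ M : ℕ, M₀ ≤ M → ∀ c : ℤ,
      |c| ≤ B * (M : ℤ) ^ f.natDegree →
      (((Icc 1 M).filter (fun m : ℕ => c + f.eval (m : ℤ) ≠ 0 ∧ ¬ Asymp r (M ^ f.natDegree) ε (c + f.eval (m : ℤ)))).card : ℝ) ≤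
        M / Real.log (M ^ f.natDegree : ℕ) ^ U) ∧
    (∃ c C : ℝ, 0 < c ∧ ∀ h : ℤ, h ≠ 0 → c ≤ 𝔖 r h ∧ 𝔖 r h ≤ C * σ h) := by
  refine ⟨fun p B C U ε hε => family r hr p B C U ε hε, ?_, ?_⟩
  · intro f hf B U ε hε
    obtain ⟨p, B', M0, hB, h1⟩ := Pool.Agent.TH212.PL.poly_hyp f hf B
    obtain ⟨X₀, h2⟩ := family r hr p B' 1 U ε hε
    refine ⟨M0 + X₀ + 1, fun M hM c hc => ?_⟩
    have hMp : M ≤ M ^ f.natDegree := Nat.le_self_pow (by omega) M
    obtain ⟨h3, h4⟩ := h1 M (by omega) c (by push_cast; exact hc)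
    have h5 := h2 (M ^ f.natDegree) (by omega) (Fin M) (fun i : Fin M => c + f.eval (((i : ℕ) + 1 : ℕ) : ℤ)) h3 h4
    rw [Fintype.card_fin] at h5
    refine le_trans ?_ h5
    apply Nat.cast_le.2
    have h6 : (Icc 1 M).filter (fun m : ℕ => c + f.eval (m : ℤ) ≠ 0 ∧ ¬ Asymp r (M ^ f.natDegree) ε (c + f.eval (m : ℤ))) ⊆
        (univ.filter (fun i : Fin M => c + f.eval (((i : ℕ) + 1 : ℕ) : ℤ) ≠ 0 ∧
          ¬ Asymp r (M ^ f.natDegree) ε (c + f.eval (((i : ℕ) + 1 : ℕ) : ℤ)))).image (fun i : Fin M => (i : ℕ) + 1) := by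
      intro m hm
      rw [mem_filter, mem_Icc] at hm
      rw [mem_image]
      have e : m - 1 + 1 = m := by omega
      refine ⟨⟨m - 1, by omega⟩, ?_, e⟩
      rw [mem_filter]
      simp only [e]
      exact ⟨mem_univ _, hm.2⟩
    exact (card_le_card h6).trans card_image_le
  · obtain ⟨t, rfl⟩ : ∃ t, r = t + 2 := ⟨r - 2, by omega⟩
    obtain ⟨c, hc, h1⟩ := Pool.Agent.TH212.DV.sing_pos t
    obtain ⟨C, hC, h2⟩ := Pool.Agent.TH212.DV.sing_le t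
    refine ⟨c, C, hc, fun h hh => ?_⟩
    rw [𝔖_eq t h hh]
    have hH : 1 ≤ h.natAbs := by omega
    exact ⟨h1 _ hH, (le_abs_self _).trans (h2 _ hH)⟩

end Pool.Agent.TH212.Old.CorrelationThinShifts
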